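import Pool.Agent.U866.OM.Stm

/-!
# Project OM, package TRIG: the trigonometric identity
-/

set_option autoImplicit false

namespace Pool.Agent.U744.OM

open Pool.Agent.H498R3.GB
open Pool.Agent.U866.OM (p A Q phi psi P0 S_TRIG)
open scoped BigOperators ContDiff Topology Matrix

noncomputable section

namespace TRIGAux

/-- the Kronecker symbol -/
def d {n : ℕ} (i j : Fin n) : ℝ := (1 : Matrix (Fin n) (Fin n) ℝ) i j

theorem d_self {n : ℕ} (i : Fin n) : d i i = 1 := by simp [d]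

theorem d_ne {n : ℕ} {i j : Fin n} (h : i ≠ j) : d i j = 0 := by simp [d, h]

theorem hc {n : ℕ} (j : Fin n) (x : E n) :
    HasFDerivAt (fun z : E n => z j) (EuclideanSpace.proj (𝕜 := ℝ) j : E n →L[ℝ] ℝ) x :=
  (EuclideanSpace.proj (𝕜 := ℝ) j : E n →L[ℝ] ℝ).hasFDerivAt

theorem proj_single {n : ℕ} (i j : Fin n) :
    (EuclideanSpace.proj (𝕜 := ℝ) j : E n →L[ℝ] ℝ) (EuclideanSpace.single i 1) = d i j := by
  rw [← pd_of_hasFDerivAt (hc j 0) i, pd_coord]
  rfl

/-- first derivatives -/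
theorem pd_psi (k : ℕ) (i : Fin (k + 3)) (x : E (k + 3)) :
    pd i (psi k) x = (-(Real.sin (x 0) * Real.cos (x 1)) + Real.cos (x 0) * Real.sin (x 2)) * d i 0 +
      (-(Real.cos (x 0) * Real.sin (x 1))) * d i 1 + (Real.sin (x 0) * Real.cos (x 2)) * d i 2 := by
  have h0 := hc (0 : Fin (k + 3)) x
  have h1 := hc (1 : Fin (k + 3)) x
  have h2 := hc (2 : Fin (k + 3)) x
  have h : HasFDerivAt (psi k) _ x :=
    ((h0.cos.mul h1.cos).add (h0.sin.mul h2.sin)).const_add 2
  rw [pd_of_hasFDerivAt h i]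
  simp only [add_apply, smul_apply, proj_single,
    smul_eq_mul]
  ring

/-- second derivatives -/
theorem pd_pd_psi (k : ℕ) (i j : Fin (k + 3)) (x : E (k + 3)) :
    pd i (pd j (psi k)) x =
      ((-(Real.cos (x 0) * Real.cos (x 1)) - Real.sin (x 0) * Real.sin (x 2)) * d i 0 +
        Real.sin (x 0) * Real.sin (x 1) * d i 1 + Real.cos (x 0) * Real.cos (x 2) * d i 2) * d j 0 +
      (Real.sin (x 0) * Real.sin (x 1) * d i 0 - Real.cos (x 0) * Real.cos (x 1) * d i 1) * d j 1 +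
      (Real.cos (x 0) * Real.cos (x 2) * d i 0 - Real.sin (x 0) * Real.sin (x 2) * d i 2) * d j 2 := by
  have e : pd j (psi k) = fun z : E (k + 3) =>
      (-(Real.sin (z 0) * Real.cos (z 1)) + Real.cos (z 0) * Real.sin (z 2)) * d j 0 +
      (-(Real.cos (z 0) * Real.sin (z 1))) * d j 1 + (Real.sin (z 0) * Real.cos (z 2)) * d j 2 := by
    funext z
    exact pd_psi k j z
  rw [e]
  have h0 := hc (0 : Fin (k + 3)) x
  have h1 := hc (1 : Fin (k + 3)) x
  have h2 := hc (2 : Fin (k + 3)) x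
  have h := ((((h0.sin.mul h1.cos).neg.add (h0.cos.mul h2.sin)).mul_const (d j 0)).add
    ((h0.cos.mul h1.sin).neg.mul_const (d j 1))).add ((h0.sin.mul h2.cos).mul_const (d j 2))
  have h' := pd_of_hasFDerivAt h i
  refine Eq.trans ?_ (h'.trans ?_)
  · rfl
  · simp only [add_apply, smul_apply, proj_single,
      neg_apply, smul_eq_mul]
    ring

theorem sum3 {k : ℕ} (f : Fin (k + 3) → ℝ) (h : ∀ i, i ≠ 0 → i ≠ 1 → i ≠ 2 → f i = 0) :
    ∑ i, f i = f 0 + f 1 + f 2 := by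
  rw [Fin.sum_univ_succ, Fin.sum_univ_succ, Fin.sum_univ_succ]
  have : ∑ i : Fin k, f i.succ.succ.succ = 0 := by
    refine Finset.sum_eq_zero fun i _ => h _ ?_ ?_ ?_
    · intro hh
      have := congrArg Fin.val hh
      simp at this
    · intro hh
      have := congrArg Fin.val hh
      simp at this
    · intro hh
      have e : (2 : Fin (k + 3)) = (0 : Fin (k + 1)).succ.succ := rfl
      rw [e] at hh
      exact Fin.succ_ne_zero i (Fin.succ_injective _ (Fin.succ_injective _ hh))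
  rw [this]
  have e1 : (0 : Fin (k + 2)).succ = 1 := rfl
  have e2 : (0 : Fin (k + 1)).succ.succ = 2 := rfl
  rw [e1, e2]
  ring

theorem ne01 {k : ℕ} : (0 : Fin (k + 3)) ≠ 1 := by
  intro h
  have := congrArg Fin.val h
  simp at this

theorem ne12 {k : ℕ} : (1 : Fin (k + 3)) ≠ 2 := by
  intro h
  have e1 : (1 : Fin (k + 3)) = (0 : Fin (k + 2)).succ := rfl
  have e2 : (2 : Fin (k + 3)) = (0 : Fin (k + 1)).succ.succ := rfl
  rw [e1, e2] at h
  exact Fin.succ_ne_zero _ (Fin.succ_injective _ h).symm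

theorem ne02 {k : ℕ} : (0 : Fin (k + 3)) ≠ 2 := by
  intro h
  have e2 : (2 : Fin (k + 3)) = (0 : Fin (k + 1)).succ.succ := rfl
  rw [e2] at h
  exact Fin.succ_ne_zero _ h.symm

/-- partial derivatives along lines -/
theorem pd_line {n : ℕ} {f : E n → ℝ} {x : E n} (hf : DifferentiableAt ℝ f x) (i : Fin n) {a : ℝ}
    (h : HasDerivAt (fun t : ℝ => f (x + t • EuclideanSpace.single i 1)) a 0) : pd i f x = a := by
  have hl : HasDerivAt (fun t : ℝ => x + t • (EuclideanSpace.single i 1 : E n))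
      (EuclideanSpace.single i 1 : E n) 0 := by
    have := ((hasDerivAt_id (0 : ℝ)).smul_const (EuclideanSpace.single i 1 : E n)).const_add x
    simpa using this
  have hf' : HasFDerivAt f (fderiv ℝ f x) (x + (0 : ℝ) • (EuclideanSpace.single i 1 : E n)) := by
    rw [zero_smul, add_zero]
    exact hf.hasFDerivAt
  have h2 := hf'.comp_hasDerivAt (0 : ℝ) hl
  exact h2.unique h

theorem line_coord {n : ℕ} (x : E n) (i j : Fin n) (t : ℝ) :
    (x + t • (EuclideanSpace.single i 1 : E n)) j = x j + t * d i j := by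
  by_cases h : i = j
  · subst h
    simp [d]
  · have h' : j ≠ i := fun e => h e.symm
    simp [d_ne h, h']

theorem dsin (a : ℝ) : HasDerivAt (fun t : ℝ => Real.sin (a + t)) (Real.cos a) 0 := by
  have h := ((hasDerivAt_id (0 : ℝ)).const_add a).sin
  simpa using h

theorem dcos (a : ℝ) : HasDerivAt (fun t : ℝ => Real.cos (a + t)) (-Real.sin a) 0 := by
  have h := ((hasDerivAt_id (0 : ℝ)).const_add a).cos
  simpa using h

/-- the product `cos * sin` -/
theorem dN (a : ℝ) : HasDerivAt (fun t : ℝ => Real.cos (a + t) * Real.sin (a + t))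
    (Real.cos a ^ 2 - Real.sin a ^ 2) 0 := by
  have h := (dcos a).mul (dsin a)
  refine h.congr_deriv ?_
  simp only [add_zero]
  ring

/-- the difference `cos^2 - sin^2` -/
theorem dC (a : ℝ) : HasDerivAt (fun t : ℝ => Real.cos (a + t) ^ 2 - Real.sin (a + t) ^ 2)
    (-4 * (Real.cos a * Real.sin a)) 0 := by
  have h := ((dcos a).pow 2).sub ((dsin a).pow 2)
  refine h.congr_deriv ?_
  simp only [add_zero]
  norm_num
  ring

theorem pd_P0 (k : ℕ) (x : E (k + 3)) :
    pd 0 (fun z : E (k + 3) => P0 (Real.cos (z 0)) (Real.sin (z 0)) (Real.cos (z 1)) (Real.sin (z 2))) x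
    = (Real.cos (x 1) ^ 2 * Real.sin (x 2) ^ 2 / 2 - (Real.cos (x 1) ^ 2 - Real.sin (x 2) ^ 2) ^ 2 / 4
        + Real.cos (x 1) ^ 2 * (1 - Real.cos (x 1) ^ 2) / 4
        + Real.sin (x 2) ^ 2 * (1 - Real.sin (x 2) ^ 2) / 4
        + ((1 - Real.cos (x 1) ^ 2) * Real.sin (x 2) ^ 2 +
            (1 - Real.sin (x 2) ^ 2) * Real.cos (x 1) ^ 2) / 8
        - ((1 - Real.cos (x 1) ^ 2) * Real.cos (x 1) ^ 2 +
            (1 - Real.sin (x 2) ^ 2) * Real.sin (x 2) ^ 2) / 2) *
        ((Real.cos (x 0) ^ 2 - Real.sin (x 0) ^ 2) ^ 2 - 4 * (Real.cos (x 0) * Real.sin (x 0)) ^ 2)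
      - 3 / 2 * Real.cos (x 1) * Real.sin (x 2) * (Real.cos (x 1) ^ 2 - Real.sin (x 2) ^ 2) *
        (2 * (Real.cos (x 0) * Real.sin (x 0)) * (Real.cos (x 0) ^ 2 - Real.sin (x 0) ^ 2))
      + Real.cos (x 1) * Real.sin (x 2) * ((1 - Real.cos (x 1) ^ 2) + (1 - Real.sin (x 2) ^ 2)) *
        (Real.sin (x 0) * Real.cos (x 0))
      + (Real.cos (x 1) ^ 2 * (1 - Real.cos (x 1) ^ 2) - Real.sin (x 2) ^ 2 * (1 - Real.sin (x 2) ^ 2)) *
        (Real.cos (x 0) ^ 2 - Real.sin (x 0) ^ 2) := by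
  apply pd_line
  · have h0 := (contDiff_coord (n := k + 3) 0)
    have h1 := (contDiff_coord (n := k + 3) 1)
    have h2 := (contDiff_coord (n := k + 3) 2)
    refine diff_of ?_ x
    unfold P0
    have c0 := h0.cos
    have s0 := h0.sin
    have c1 := h1.cos
    have s2 := h2.sin
    fun_prop
  · simp only [line_coord]
    simp only [d_self, d_ne ne01, d_ne ne02, mul_one, mul_zero, add_zero]
    have hN := dN (x 0)
    have hC := dC (x 0)
    have hM := hN.mul hC
    have hN2 := hN.pow 2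
    have hS := (dsin (x 0)).pow 2
    have h := ((((hM.const_mul (Real.cos (x 1) ^ 2 * Real.sin (x 2) ^ 2 / 2
        - (Real.cos (x 1) ^ 2 - Real.sin (x 2) ^ 2) ^ 2 / 4
        + Real.cos (x 1) ^ 2 * (1 - Real.cos (x 1) ^ 2) / 4
        + Real.sin (x 2) ^ 2 * (1 - Real.sin (x 2) ^ 2) / 4
        + ((1 - Real.cos (x 1) ^ 2) * Real.sin (x 2) ^ 2 +
            (1 - Real.sin (x 2) ^ 2) * Real.cos (x 1) ^ 2) / 8
        - ((1 - Real.cos (x 1) ^ 2) * Real.cos (x 1) ^ 2 +
            (1 - Real.sin (x 2) ^ 2) * Real.sin (x 2) ^ 2) / 2)).sub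
      (hN2.const_mul (3 / 2 * Real.cos (x 1) * Real.sin (x 2) *
        (Real.cos (x 1) ^ 2 - Real.sin (x 2) ^ 2)))).add
      (hS.const_mul (Real.cos (x 1) * Real.sin (x 2) *
        ((1 - Real.cos (x 1) ^ 2) + (1 - Real.sin (x 2) ^ 2)) / 2))).add
      (hN.const_mul (Real.cos (x 1) ^ 2 * (1 - Real.cos (x 1) ^ 2) -
        Real.sin (x 2) ^ 2 * (1 - Real.sin (x 2) ^ 2))))
    refine (h.congr_deriv ?_).congr_of_eventuallyEq ?_
    · simp only [add_zero]
      norm_num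
      ring
    · refine Filter.Eventually.of_forall fun t => ?_
      simp only [Pi.add_apply, Pi.sub_apply, Pi.mul_apply, Pi.pow_apply]
      unfold P0
      ring

theorem pd_P1 (k : ℕ) (x : E (k + 3)) :
    pd 1 (fun z : E (k + 3) => Real.sin (z 1) * Real.cos (z 1) / 2 *
      (1 / 8 + Real.sin (z 2) ^ 2 / 4)) x =
      (Real.cos (x 1) ^ 2 - Real.sin (x 1) ^ 2) / 2 * (1 / 8 + Real.sin (x 2) ^ 2 / 4) := by
  apply pd_line
  · have h1 := (contDiff_coord (n := k + 3) 1)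
    have h2 := (contDiff_coord (n := k + 3) 2)
    refine diff_of ?_ x
    have c1 := h1.cos
    have s1 := h1.sin
    have s2 := h2.sin
    fun_prop
  · simp only [line_coord]
    simp only [d_self, d_ne ne12, mul_one, mul_zero, add_zero]
    have hN := (dN (x 1)).mul_const (1 / 2 * (1 / 8 + Real.sin (x 2) ^ 2 / 4))
    refine (hN.congr_deriv ?_).congr_of_eventuallyEq ?_
    · ring
    · refine Filter.Eventually.of_forall fun t => ?_
      simp only
      ring

theorem pd_P2 (k : ℕ) (x : E (k + 3)) :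
    pd 2 (fun z : E (k + 3) => - (Real.sin (z 2) * Real.cos (z 2)) / 8) x =
      -(Real.cos (x 2) ^ 2 - Real.sin (x 2) ^ 2) / 8 := by
  apply pd_line
  · have h2 := (contDiff_coord (n := k + 3) 2)
    refine diff_of ?_ x
    have c2 := h2.cos
    have s2 := h2.sin
    fun_prop
  · simp only [line_coord]
    simp only [d_self, mul_one]
    have hN := (dN (x 2)).mul_const (-1 / 8)
    refine (hN.congr_deriv ?_).congr_of_eventuallyEq ?_
    · ring
    · refine Filter.Eventually.of_forall fun t => ?_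
      simp only
      ring

end TRIGAux

open TRIGAux

/-- Package TRIG. -/
theorem t_TRIG : S_TRIG := by
  intro k x
  rw [pd_P0, pd_P1, pd_P2]
  have hA : ∀ i j, A (psi k) x i j = _ := fun i j => pd_pd_psi k i j x
  have hp : ∀ i, p (psi k) x i = _ := fun i => pd_psi k i x
  unfold Q
  rw [sum3 (fun i => A (psi k) x i i) (by
      intro i h0 h1 h2
      simp only [hA, d_ne h0, d_ne h1, d_ne h2]
      ring),
    sum3 (fun i => ∑ j, A (psi k) x i j * p (psi k) x i * p (psi k) x j) (by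
      intro i h0 h1 h2
      refine Finset.sum_eq_zero fun j _ => ?_
      have : p (psi k) x i = 0 := by
        rw [hp, d_ne h0, d_ne h1, d_ne h2]
        ring
      rw [this]
      ring),
    sum3 (fun i => (∑ j, A (psi k) x i j * p (psi k) x j) ^ 2) (by
      intro i h0 h1 h2
      have : ∑ j, A (psi k) x i j * p (psi k) x j = 0 := by
        refine Finset.sum_eq_zero fun j _ => ?_
        rw [hA, d_ne h0, d_ne h1, d_ne h2]
        ring
      rw [this]
      ring)]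
  have hsum : ∀ i, ∑ j, A (psi k) x i j * p (psi k) x j = A (psi k) x i 0 * p (psi k) x 0 +
      A (psi k) x i 1 * p (psi k) x 1 + A (psi k) x i 2 * p (psi k) x 2 := by
    intro i
    refine sum3 (fun j => A (psi k) x i j * p (psi k) x j) ?_
    intro j h0 h1 h2
    have : p (psi k) x j = 0 := by
      rw [hp, d_ne h0, d_ne h1, d_ne h2]
      ring
    simp only [this]
    ring
  have hsum2 : ∀ i, ∑ j, A (psi k) x i j * p (psi k) x i * p (psi k) x j =
      p (psi k) x i * (A (psi k) x i 0 * p (psi k) x 0 +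
      A (psi k) x i 1 * p (psi k) x 1 + A (psi k) x i 2 * p (psi k) x 2) := by
    intro i
    rw [← hsum i, Finset.mul_sum]
    exact Finset.sum_congr rfl fun j _ => by ring
  simp only [hsum, hsum2]
  have n10 : (1 : Fin (k + 3)) ≠ 0 := ne01.symm
  have n20 : (2 : Fin (k + 3)) ≠ 0 := ne02.symm
  have n21 : (2 : Fin (k + 3)) ≠ 1 := ne12.symm
  have p0 : p (psi k) x 0 =
      -(Real.sin (x 0) * Real.cos (x 1)) + Real.cos (x 0) * Real.sin (x 2) := by
    rw [hp, d_self, d_ne ne01, d_ne ne02]; ring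
  have p1 : p (psi k) x 1 = -(Real.cos (x 0) * Real.sin (x 1)) := by
    rw [hp, d_self, d_ne n10, d_ne ne12]; ring
  have p2 : p (psi k) x 2 = Real.sin (x 0) * Real.cos (x 2) := by
    rw [hp, d_self, d_ne n20, d_ne n21]; ring
  have a00 : A (psi k) x 0 0 =
      -(Real.cos (x 0) * Real.cos (x 1)) - Real.sin (x 0) * Real.sin (x 2) := by
    rw [hA, d_self, d_ne ne01, d_ne ne02]; ring
  have a01 : A (psi k) x 0 1 = Real.sin (x 0) * Real.sin (x 1) := by
    rw [hA]; simp only [d_self, d_ne ne01, d_ne ne02, d_ne n10, d_ne ne12]; ring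
  have a02 : A (psi k) x 0 2 = Real.cos (x 0) * Real.cos (x 2) := by
    rw [hA]; simp only [d_self, d_ne ne01, d_ne ne02, d_ne n20, d_ne n21]; ring
  have a10 : A (psi k) x 1 0 = Real.sin (x 0) * Real.sin (x 1) := by
    rw [hA]; simp only [d_self, d_ne ne01, d_ne ne02, d_ne n10, d_ne ne12]; ring
  have a11 : A (psi k) x 1 1 = -(Real.cos (x 0) * Real.cos (x 1)) := by
    rw [hA]; simp only [d_self, d_ne n10, d_ne ne12]; ring
  have a12 : A (psi k) x 1 2 = 0 := by
    rw [hA]; simp only [d_self, d_ne n10, d_ne ne12, d_ne n20, d_ne n21]; ring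
  have a20 : A (psi k) x 2 0 = Real.cos (x 0) * Real.cos (x 2) := by
    rw [hA]; simp only [d_self, d_ne ne01, d_ne ne02, d_ne n20, d_ne n21]; ring
  have a21 : A (psi k) x 2 1 = 0 := by
    rw [hA]; simp only [d_self, d_ne n10, d_ne ne12, d_ne n20, d_ne n21]; ring
  have a22 : A (psi k) x 2 2 = -(Real.sin (x 0) * Real.sin (x 2)) := by
    rw [hA]; simp only [d_self, d_ne n20, d_ne n21]; ring
  rw [p0, p1, p2, a00, a01, a02, a10, a11, a12, a20, a21, a22]
  have hc2 := Real.sin_sq_add_cos_sq (x 0)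
  have hu2 := Real.sin_sq_add_cos_sq (x 1)
  have hw2 := Real.sin_sq_add_cos_sq (x 2)
  generalize Real.cos (x 0) = c at *
  generalize Real.sin (x 0) = s at *
  generalize Real.cos (x 1) = f at *
  generalize Real.sin (x 1) = u at *
  generalize Real.sin (x 2) = g at *
  generalize Real.cos (x 2) = w at *
  linear_combination (1 / 16 + 1 / 8 * g ^ 2 - s ^ 4 * f ^ 2 - c ^ 2 * s ^ 2
      + 2 * c ^ 2 * s ^ 2 * w ^ 2 + c ^ 2 * s ^ 2 * g ^ 2 - c ^ 2 * s ^ 2 * u ^ 2
      + c ^ 2 * s ^ 2 * f ^ 2 + 2 * c ^ 3 * s * f * g + c ^ 4 * f ^ 2) * hu2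
    + (1 / 8 + s ^ 4 * g ^ 2 + 2 * c * s ^ 3 * f * g + c ^ 2 * s ^ 2 - c ^ 2 * s ^ 2 * w ^ 2
      + c ^ 2 * s ^ 2 * g ^ 2 - c ^ 2 * s ^ 2 * f ^ 2 - c ^ 4 * g ^ 2) * hw2
    + (1 / 8 * g ^ 2 + 1 / 8 * f ^ 2 + 1 / 4 * f ^ 2 * g ^ 2 + 9 / 8 * s ^ 2 * g ^ 2
      - s ^ 2 * g ^ 4 - 7 / 8 * s ^ 2 * f ^ 2 + 1 / 4 * s ^ 2 * f ^ 2 * g ^ 2 + s ^ 2 * f ^ 4
      + 2 * c * s * f * g - c * s * f * g ^ 3 - c * s * f ^ 3 * g - 7 / 8 * c ^ 2 * g ^ 2
      + c ^ 2 * g ^ 4 + 9 / 8 * c ^ 2 * f ^ 2 + 1 / 4 * c ^ 2 * f ^ 2 * g ^ 2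
      - c ^ 2 * f ^ 4) * hc2

end

end Pool.Agent.U744.OM
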